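import Pool.Agent.X27.MZ.Words

set_option autoImplicit false

/-! The series of Broadhurst and Kreimer at `Y = 1`. -/

namespace Pool.Agent.X27.MZ

open PowerSeries Finset

/-- `X² / (1 - X²)` -/
noncomputable def E : PowerSeries ℚ := X ^ 2 * (1 - X ^ 2)⁻¹

/-- `X³ / (1 - X²)` -/
noncomputable def O : PowerSeries ℚ := X ^ 3 * (1 - X ^ 2)⁻¹

/-- `X¹² / ((1 - X⁴) (1 - X⁶))` -/
noncomputable def S : PowerSeries ℚ := X ^ 12 * ((1 - X ^ 4) * (1 - X ^ 6))⁻¹

/-- `1 - O(X) Y + S(X) Y² - S(X) Y⁴`, a power series in `Y` with coefficients in `ℚ[[X]]`. -/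
noncomputable def den : PowerSeries (PowerSeries ℚ) :=
  1 - C O * X + C S * X ^ 2 - C S * X ^ 4

/-- The series `(1 + E(X) Y) / (1 - O(X) Y + S(X) Y² - S(X) Y⁴)`. -/
noncomputable def bk : PowerSeries (PowerSeries ℚ) := (1 + C E * X) * invOfUnit den 1

theorem bk_mul_den : bk * den = 1 + C E * X := by
  have h : constantCoeff den = ((1 : (PowerSeries ℚ)ˣ) : PowerSeries ℚ) := by
    simp [den]
  rw [bk, mul_assoc, mul_comm (invOfUnit den 1), mul_invOfUnit den 1 h, mul_one]

/-- The coefficient of `Y ^ r`. -/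
noncomputable def B (r : ℕ) : PowerSeries ℚ := coeff r bk

theorem coeff_shift (a : PowerSeries ℚ) (j r : ℕ) :
    coeff r (bk * (C a * X ^ j)) = if j ≤ r then a * B (r - j) else 0 := by
  rw [← mul_assoc, coeff_mul_X_pow']
  split_ifs with h
  · rw [coeff_mul_C, mul_comm]; rfl
  · rfl

theorem rec_B (r : ℕ) : B r - (if 1 ≤ r then O * B (r - 1) else 0) +
    (if 2 ≤ r then S * B (r - 2) else 0) - (if 4 ≤ r then S * B (r - 4) else 0) =
    if r = 0 then 1 else if r = 1 then E else 0 := by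
  have h := congrArg (coeff r) bk_mul_den
  have e : bk * den = bk - bk * (C O * X ^ 1) + bk * (C S * X ^ 2) - bk * (C S * X ^ 4) := by
    rw [den]; ring
  rw [e, map_sub, map_add, map_sub, coeff_shift, coeff_shift, coeff_shift] at h
  have e2 : coeff r (1 + C E * X : PowerSeries (PowerSeries ℚ)) =
      if r = 0 then 1 else if r = 1 then E else 0 := by
    rw [map_add, coeff_one, coeff_C_mul, coeff_X]
    rcases r with _ | _ | r
    · simp
    · simp
    · simp
  rw [e2] at h
  exact h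

theorem dvd_O : (X : PowerSeries ℚ) ^ 1 ∣ O := ⟨X ^ 2 * (1 - X ^ 2)⁻¹, by rw [O]; ring⟩
theorem dvd_E : (X : PowerSeries ℚ) ^ 1 ∣ E := ⟨X * (1 - X ^ 2)⁻¹, by rw [E]; ring⟩
theorem dvd_S2 : (X : PowerSeries ℚ) ^ 2 ∣ S := ⟨X ^ 10 * ((1 - X ^ 4) * (1 - X ^ 6))⁻¹, by rw [S]; ring⟩
theorem dvd_S4 : (X : PowerSeries ℚ) ^ 4 ∣ S := ⟨X ^ 8 * ((1 - X ^ 4) * (1 - X ^ 6))⁻¹, by rw [S]; ring⟩

theorem dvd_B (r : ℕ) : (X : PowerSeries ℚ) ^ r ∣ B r := by
  induction r using Nat.strong_induction_on with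
  | _ r ih =>
    have h := rec_B r
    have e : B r = (if r = 0 then 1 else if r = 1 then E else 0) +
        (if 1 ≤ r then O * B (r - 1) else 0) - (if 2 ≤ r then S * B (r - 2) else 0) +
        (if 4 ≤ r then S * B (r - 4) else 0) := by
      rw [← h]; ring
    rw [e]
    refine dvd_add (dvd_sub (dvd_add ?_ ?_) ?_) ?_
    · split_ifs with h1 h2
      · rw [h1, pow_zero]
      · rw [h2]; exact dvd_E
      · exact dvd_zero _
    · split_ifs with h1
      · have h2 : r = 1 + (r - 1) := by omega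
        conv_lhs => rw [h2, pow_add]
        exact mul_dvd_mul dvd_O (ih _ (by omega))
      · exact dvd_zero _
    · split_ifs with h1
      · have h2 : r = 2 + (r - 2) := by omega
        conv_lhs => rw [h2, pow_add]
        exact mul_dvd_mul dvd_S2 (ih _ (by omega))
      · exact dvd_zero _
    · split_ifs with h1
      · have h2 : r = 4 + (r - 4) := by omega
        conv_lhs => rw [h2, pow_add]
        exact mul_dvd_mul dvd_S4 (ih _ (by omega))
      · exact dvd_zero _

theorem coeff_B {j r : ℕ} (h : j < r) : coeff j (B r) = 0 :=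
  (X_pow_dvd_iff.1 (dvd_B r)) j h

/-- The partial sums. -/
noncomputable def G (R : ℕ) : PowerSeries ℚ := ∑ r ∈ range R, B r

theorem coeff_G {j R R' : ℕ} (h : j < R) (h' : R ≤ R') : coeff j (G R') = coeff j (G R) := by
  obtain ⟨l, rfl⟩ := Nat.exists_eq_add_of_le h'
  rw [G, sum_range_add, map_add, map_sum (coeff j) _ (range l),
    sum_eq_zero fun x _ => coeff_B (by omega), add_zero]
  rfl

theorem sum_shift (a : PowerSeries ℚ) (j R : ℕ) :
    ∑ r ∈ range (R + j), (if j ≤ r then a * B (r - j) else 0) = a * G R := by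
  rw [Nat.add_comm, sum_range_add, sum_eq_zero, zero_add, G, mul_sum]
  · refine sum_congr rfl fun r _ => ?_
    rw [if_pos (by omega), Nat.add_sub_cancel_left]
  · intro r hr
    rw [mem_range] at hr
    rw [if_neg (by omega)]

theorem rec_G (R : ℕ) : G (R + 4) - O * G (R + 3) + S * G (R + 2) - S * G R = 1 + E := by
  have h1 := sum_congr rfl fun r (_ : r ∈ range (R + 4)) => rec_B r
  rw [sum_sub_distrib, sum_add_distrib, sum_sub_distrib] at h1
  have e1 := sum_shift O 1 (R + 3)
  have e2 := sum_shift S 2 (R + 2)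
  have e4 := sum_shift S 4 R
  rw [show R + 3 + 1 = R + 4 by omega] at e1
  rw [show R + 2 + 2 = R + 4 by omega] at e2
  rw [e1, e2, e4] at h1
  have e5 : ∑ r ∈ range (R + 4), (if r = 0 then (1 : PowerSeries ℚ) else if r = 1 then E else 0) =
      1 + E := by
    rw [show R + 4 = 2 + (R + 2) by omega, sum_range_add, sum_range_succ, sum_range_one,
      sum_eq_zero (s := range (R + 2)), add_zero]
    · simp
    · intro r _
      rw [if_neg (by omega), if_neg (by omega)]
  rw [e5] at h1
  exact h1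

theorem unit_one : (1 - X ^ 2 : PowerSeries ℚ) * (1 - X ^ 2)⁻¹ = 1 :=
  PowerSeries.mul_inv_cancel _ (by simp)

theorem rec_G2 (R : ℕ) : G (R + 4) - X ^ 2 * G (R + 4) - X ^ 3 * G (R + 3) +
    (1 - X ^ 2) * S * (B R + B (R + 1)) = 1 := by
  have h1 : (1 - X ^ 2) * (G (R + 4) - O * G (R + 3) + S * G (R + 2) - S * G R) =
      (1 - X ^ 2) * (1 + E) := by rw [rec_G]
  have h2 : G (R + 2) = G R + B R + B (R + 1) := by
    rw [G, sum_range_succ, sum_range_succ]; rfl
  rw [h2] at h1
  have h3 : (1 - X ^ 2) * O = X ^ 3 := by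
    rw [O, mul_left_comm, unit_one, mul_one]
  have h4 : (1 - X ^ 2) * E = X ^ 2 := by
    rw [E, mul_left_comm, unit_one, mul_one]
  have h5 : (1 - X ^ 2) * (1 + E) = 1 := by rw [mul_add, h4]; ring
  rw [h5] at h1
  linear_combination h1 + G (R + 3) * h3

/-- The coefficients of the series at `Y = 1`. -/
noncomputable def t (k : ℕ) : ℚ := ∑ r ∈ range (k + 1), coeff k (coeff r bk)

theorem t_eq {k R : ℕ} (h : k < R) : coeff k (G R) = t k := by
  rw [coeff_G (Nat.lt_succ_self k) h, G, map_sum]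
  rfl

theorem t_rec (k : ℕ) : t k - (if 2 ≤ k then t (k - 2) else 0) - (if 3 ≤ k then t (k - 3) else 0) =
    if k = 0 then 1 else 0 := by
  have h := congrArg (coeff k) (rec_G2 (k + 1))
  rw [map_add, map_sub, map_sub, coeff_X_pow_mul', coeff_X_pow_mul', coeff_one,
    t_eq (by omega)] at h
  have h0 : coeff k ((1 - X ^ 2) * S * (B (k + 1) + B (k + 1 + 1))) = 0 := by
    have hd : (X : PowerSeries ℚ) ^ (k + 1) ∣ (1 - X ^ 2) * S * (B (k + 1) + B (k + 1 + 1)) := by
      refine Dvd.dvd.mul_left (dvd_add (dvd_B _) ?_) _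
      exact (pow_dvd_pow X (Nat.le_succ _)).trans (dvd_B _)
    exact (X_pow_dvd_iff.1 hd) k (Nat.lt_succ_self k)
  rw [h0, add_zero] at h
  have e2 : (if 2 ≤ k then coeff (k - 2) (G (k + 1 + 4)) else 0) = if 2 ≤ k then t (k - 2) else 0 := by
    split_ifs
    · exact t_eq (by omega)
    · rfl
  have e3 : (if 3 ≤ k then coeff (k - 3) (G (k + 1 + 3)) else 0) = if 3 ≤ k then t (k - 3) else 0 := by
    split_ifs
    · exact t_eq (by omega)
    · rfl
  rw [e2, e3] at h
  exact h

theorem t_eq_d (k : ℕ) : t k = d k := by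
  induction k using Nat.strong_induction_on with
  | _ k ih =>
    have h := t_rec k
    match k, ih, h with
    | 0, _, h => rw [d_zero]; simpa using h
    | 1, _, h => rw [d_one]; simpa using h
    | 2, ih, h =>
      have h0 := ih 0 (by omega)
      simp only [le_refl, if_true, Nat.sub_self, h0, d_zero] at h
      rw [d_two]
      norm_num at h ⊢
      linarith
    | k + 3, ih, h =>
      have h1 := ih (k + 1) (by omega)
      have h0 := ih k (by omega)
      rw [if_pos (by omega), if_pos (by omega), if_neg (by omega),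
        show k + 3 - 2 = k + 1 by omega, show k + 3 - 3 = k by omega, h1, h0] at h
      rw [d_rec]
      push_cast
      linarith

end Pool.Agent.X27.MZ
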