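import Mathlib

set_option autoImplicit false

/-! Words in the letters 2 and 3. -/

namespace Pool.Agent.X27.MZ

/-- The words of weight `k` in the letters `2` and `3`. -/
abbrev Words (k : ℕ) : Type := {l : List ℕ // (∀ a ∈ l, a = 2 ∨ a = 3) ∧ l.sum = k}

instance words_one : IsEmpty (Words 1) := by
  constructor
  rintro ⟨l, h1, h2⟩
  cases l with
  | nil => simp at h2
  | cons a t =>
    have := h1 a (by simp)
    simp only [List.sum_cons] at h2
    omega

theorem words_zero (w : Words 0) : w = ⟨[], by simp⟩ := by
  obtain ⟨l, h1, h2⟩ := w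
  cases l with
  | nil => rfl
  | cons a t =>
    have := h1 a (by simp)
    simp only [List.sum_cons] at h2
    omega

theorem words_two (w : Words 2) : w = ⟨[2], by simp⟩ := by
  obtain ⟨l, h1, h2⟩ := w
  cases l with
  | nil => simp at h2
  | cons a t =>
    have ha := h1 a (by simp)
    simp only [List.sum_cons] at h2
    have h3 : a = 2 := by omega
    subst h3
    have h4 : t.sum = 0 := by omega
    cases t with
    | nil => rfl
    | cons b u =>
      have hb := h1 b (by simp)
      simp only [List.sum_cons] at h4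
      omega

/-- Put a letter in front. -/
def cons3 (k : ℕ) : Words (k + 1) ⊕ Words k → Words (k + 3)
  | .inl t => ⟨2 :: t.1, by
      constructor
      · intro a ha
        rcases List.mem_cons.1 ha with h | h
        · left; exact h
        · exact t.2.1 a h
      · rw [List.sum_cons, t.2.2]; omega⟩
  | .inr t => ⟨3 :: t.1, by
      constructor
      · intro a ha
        rcases List.mem_cons.1 ha with h | h
        · right; exact h
        · exact t.2.1 a h
      · rw [List.sum_cons, t.2.2]; omega⟩

theorem cons3_bij (k : ℕ) : Function.Bijective (cons3 k) := by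
  constructor
  · rintro (a | a) (b | b) h
    · have h1 : 2 :: a.1 = 2 :: b.1 := congrArg Subtype.val h
      rw [Subtype.ext (List.cons.inj h1).2]
    · have h1 : 2 :: a.1 = 3 :: b.1 := congrArg Subtype.val h
      exact absurd (List.cons.inj h1).1 (by norm_num)
    · have h1 : 3 :: a.1 = 2 :: b.1 := congrArg Subtype.val h
      exact absurd (List.cons.inj h1).1 (by norm_num)
    · have h1 : 3 :: a.1 = 3 :: b.1 := congrArg Subtype.val h
      rw [Subtype.ext (List.cons.inj h1).2]
  · rintro ⟨l, h1, h2⟩
    cases l with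
    | nil => simp at h2
    | cons a t =>
      have ha := h1 a (by simp)
      have h3 : ∀ b ∈ t, b = 2 ∨ b = 3 := fun b hb => h1 b (List.mem_cons_of_mem _ hb)
      simp only [List.sum_cons] at h2
      rcases ha with rfl | rfl
      · exact ⟨.inl ⟨t, h3, by omega⟩, rfl⟩
      · exact ⟨.inr ⟨t, h3, by omega⟩, rfl⟩

theorem finite_words : ∀ k : ℕ, Finite (Words k)
  | 0 => by
    have : Subsingleton (Words 0) := ⟨fun a b => by rw [words_zero a, words_zero b]⟩
    infer_instance
  | 1 => inferInstance
  | 2 => by
    have : Subsingleton (Words 2) := ⟨fun a b => by rw [words_two a, words_two b]⟩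
    infer_instance
  | k + 3 => by
    have h1 := finite_words (k + 1)
    have h2 := finite_words k
    exact Finite.of_surjective _ (cons3_bij k).2

instance (k : ℕ) : Finite (Words k) := finite_words k

/-- The number of words of weight `k`. -/
noncomputable def d (k : ℕ) : ℕ := Nat.card (Words k)

theorem d_zero : d 0 = 1 := by
  have : Unique (Words 0) := ⟨⟨⟨[], by simp⟩⟩, words_zero⟩
  exact Nat.card_unique

theorem d_one : d 1 = 0 := Nat.card_of_isEmpty

theorem d_two : d 2 = 1 := by
  have : Unique (Words 2) := ⟨⟨⟨[2], by simp⟩⟩, words_two⟩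
  exact Nat.card_unique

theorem d_rec (k : ℕ) : d (k + 3) = d (k + 1) + d k := by
  unfold d
  rw [← Nat.card_eq_of_bijective _ (cons3_bij k), Nat.card_sum]

theorem d_le_two : ∀ k : ℕ, d (k + 3) ≤ 2 * d (k + 2)
  | 0 => by rw [d_rec, d_zero, d_two, d_one]; norm_num
  | 1 => by rw [d_rec, d_rec, d_zero, d_two, d_one]; norm_num
  | 2 => by
    rw [show 2 + 3 = 2 + 3 from rfl, d_rec 2, show 2 + 1 = 0 + 3 from rfl, d_rec 0,
      show 2 + 2 = 1 + 3 from rfl, d_rec 1]
    simp only [Nat.zero_add, Nat.reduceAdd, d_zero, d_one, d_two]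
    norm_num
  | k + 3 => by
    have h1 := d_le_two (k + 1)
    have h2 := d_le_two k
    have h3 : d (k + 3 + 3) = d (k + 3 + 1) + d (k + 3) := d_rec (k + 3)
    have h4 : d (k + 3 + 2) = d (k + 2 + 1) + d (k + 2) := d_rec (k + 2)
    have h5 : k + 3 + 1 = k + 1 + 3 := by omega
    have h6 : k + 1 + 2 = k + 3 := by omega
    have h7 : k + 2 + 1 = k + 3 := by omega
    rw [h5] at h3
    rw [h6] at h1
    rw [h7] at h4
    omega

theorem d_add_le (m : ℕ) {k : ℕ} (hk : 2 ≤ k) : d (m + k) ≤ 2 ^ m * d k := by
  induction m with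
  | zero => simp
  | succ m ih =>
    have h1 := d_le_two (m + k - 2)
    have h2 : m + k - 2 + 3 = m + 1 + k := by omega
    have h3 : m + k - 2 + 2 = m + k := by omega
    rw [h2, h3] at h1
    calc d (m + 1 + k) ≤ 2 * d (m + k) := h1
      _ ≤ 2 * (2 ^ m * d k) := Nat.mul_le_mul_left _ ih
      _ = 2 ^ (m + 1) * d k := by ring

theorem d_pos {k : ℕ} (hk : k ≠ 1) : 0 < d k := by
  induction k using Nat.strong_induction_on with
  | _ k ih =>
    match k, hk, ih with
    | 0, _, _ => rw [d_zero]; norm_num
    | 1, h, _ => exact absurd rfl h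
    | 2, _, _ => rw [d_two]; norm_num
    | k + 3, _, ih =>
      rw [d_rec]
      rcases Nat.eq_zero_or_pos k with h | h
      · subst h
        have := ih 0 (by omega) (by omega)
        omega
      · have := ih (k + 1) (by omega) (by omega)
        omega

end Pool.Agent.X27.MZ
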