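import Mathlib

set_option autoImplicit false

/-! Failures of injectivity propagate in a filtered algebra without zero divisors. -/

namespace Pool.Agent.X27.MZ

variable {H K : Type*} [CommRing H] [IsDomain H] [Algebra ℚ H] [CommRing K] [Algebra ℚ K]

/-- If `per` kills a nonzero element of `V m` then it kills a space of dimension `dim V k` in `V (m + k)`. -/
theorem amplify (per : H →ₐ[ℚ] K) (V : ℕ → Submodule ℚ H) [∀ k, FiniteDimensional ℚ (V k)]
    (hV : ∀ j k x y, x ∈ V j → y ∈ V k → x * y ∈ V (j + k)) {m : ℕ} {ξ : H} (hξ : ξ ∈ V m)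
    (h0 : ξ ≠ 0) (hper : per ξ = 0) (k : ℕ) :
    Module.finrank ℚ ((V (m + k)).map per.toLinearMap) + Module.finrank ℚ (V k) ≤
      Module.finrank ℚ (V (m + k)) := by
  set P : V (m + k) →ₗ[ℚ] K := per.toLinearMap.comp (V (m + k)).subtype with hP
  let φ : V k →ₗ[ℚ] LinearMap.ker P :=
    { toFun := fun x => ⟨⟨ξ * x.1, hV m k _ _ hξ x.2⟩, by
        rw [LinearMap.mem_ker]
        show per (ξ * x.1) = 0
        rw [map_mul, hper, zero_mul]⟩
      map_add' := fun x y => by
        apply Subtype.ext; apply Subtype.ext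
        show ξ * (x.1 + y.1) = ξ * x.1 + ξ * y.1
        rw [mul_add]
      map_smul' := fun c x => by
        apply Subtype.ext; apply Subtype.ext
        show ξ * (c • x.1) = c • (ξ * x.1)
        rw [mul_smul_comm] }
  have hφ : Function.Injective φ := by
    intro x y h
    have h1 : ξ * x.1 = ξ * y.1 := congrArg (fun z => z.1.1) h
    exact Subtype.ext (mul_left_cancel₀ h0 h1)
  have h1 := LinearMap.finrank_le_finrank_of_injective hφ
  have h2 := LinearMap.finrank_range_add_finrank_ker P
  have h3 : LinearMap.range P = (V (m + k)).map per.toLinearMap := by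
    rw [hP, LinearMap.range_comp, Submodule.range_subtype]
  rw [h3] at h2
  omega

/-- The dimension of the image is full if and only if nothing is killed. -/
theorem finrank_map_eq_iff (per : H →ₐ[ℚ] K) (V : Submodule ℚ H) [FiniteDimensional ℚ V] :
    Module.finrank ℚ (V.map per.toLinearMap) = Module.finrank ℚ V ↔
      ∀ x ∈ V, per x = 0 → x = 0 := by
  set P : V →ₗ[ℚ] K := per.toLinearMap.comp V.subtype with hP
  have h2 := LinearMap.finrank_range_add_finrank_ker P
  have h3 : LinearMap.range P = V.map per.toLinearMap := by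
    rw [hP, LinearMap.range_comp, Submodule.range_subtype]
  rw [h3] at h2
  have h4 : (∀ x ∈ V, per x = 0 → x = 0) ↔ LinearMap.ker P = ⊥ := by
    rw [Submodule.eq_bot_iff]
    constructor
    · rintro h ⟨x, hx⟩ hx2
      exact Subtype.ext (h x hx hx2)
    · intro h x hx hx2
      exact congrArg Subtype.val (h ⟨x, hx⟩ hx2)
  rw [h4, ← Submodule.finrank_eq_zero (R := ℚ)]
  omega

theorem finrank_map_le (per : H →ₐ[ℚ] K) (V : Submodule ℚ H) [FiniteDimensional ℚ V] :
    Module.finrank ℚ (V.map per.toLinearMap) ≤ Module.finrank ℚ V :=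
  Submodule.finrank_map_le _ _

theorem fib_le (m k : ℕ) : Nat.fib (m + k + 1) ≤ 2 ^ m * Nat.fib (k + 1) := by
  induction m with
  | zero => simp
  | succ m ih =>
    have h1 : Nat.fib (m + 1 + k + 1) ≤ 2 * Nat.fib (m + k + 1) := by
      have h2 : m + 1 + k + 1 = m + k + 2 := by omega
      rw [h2, Nat.fib_add_two]
      have h3 : Nat.fib (m + k) ≤ Nat.fib (m + k + 1) := Nat.fib_le_fib_succ
      omega
    calc Nat.fib (m + 1 + k + 1) ≤ 2 * Nat.fib (m + k + 1) := h1
      _ ≤ 2 * (2 ^ m * Nat.fib (k + 1)) := Nat.mul_le_mul_left _ ih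
      _ = 2 ^ (m + 1) * Nat.fib (k + 1) := by ring

end Pool.Agent.X27.MZ
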